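import Pool.Agent.FRc51.Rot

/-!
MP_7364f6_an, Q1, disproof, in the conventions of the problem file (lower density as a liminf,
real and complex scalars): an operator on a separable infinite dimensional Banach space whose
frequently recurrent vectors form a comeager set different from the whole space.
-/

set_option autoImplicit false

namespace Pool.Agent.Results.MP_7364f6_an.ComeagerNotAll

open Filter Topology Set

noncomputable section

/-- The lower density liminf |A ∩ [0,N]| / (N+1) of a set A of natural numbers. -/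
def lowerDensity (A : Set ℕ) : ℝ :=
  Filter.liminf (fun N : ℕ => ((A ∩ Set.Iic N).ncard : ℝ) / ((N : ℝ) + 1)) Filter.atTop

/-- The set of frequently recurrent vectors of the operator T: the vectors x such that for every
neighbourhood U of x the set of all n with T^n x in U has positive lower density. -/
def FRec {𝕜 X : Type} [RCLike 𝕜] [AddCommGroup X] [Module 𝕜 X] [TopologicalSpace X]
    (T : X →L[𝕜] X) : Set X :=
  {x | ∀ U ∈ nhds x, 0 < lowerDensity {n : ℕ | (T ^ n) x ∈ U}}

private lemma ratio_le_one (A : Set ℕ) (N : ℕ) :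
    ((A ∩ Set.Iic N).ncard : ℝ) / ((N : ℝ) + 1) ≤ 1 := by
  rw [div_le_one (by positivity)]
  have h1 : (A ∩ Set.Iic N).ncard ≤ (Set.Iic N).ncard :=
    Set.ncard_le_ncard Set.inter_subset_right (Set.finite_Iic N)
  have h2 : (Set.Iic N).ncard = N + 1 := by
    rw [← Finset.coe_Iic, Set.ncard_coe_finset, Nat.card_Iic]
  rw [h2] at h1
  exact_mod_cast h1

private lemma lowerDensity_pos (A : Set ℕ) (δ : ℝ) (hδ : 0 < δ) (N : ℕ)
    (h : ∀ n : ℕ, N ≤ n → δ * (n : ℝ) ≤ ((Set.ncard {k : ℕ | k < n ∧ k ∈ A} : ℕ) : ℝ)) :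
    0 < lowerDensity A := by
  refine lt_of_lt_of_le hδ ?_
  refine Filter.le_liminf_of_le ?_ ?_
  · refine Filter.IsCoboundedUnder.of_frequently_le (a := 1) ?_
    exact Filter.Frequently.of_forall (fun n => ratio_le_one A n)
  · filter_upwards [Filter.eventually_ge_atTop N] with n hn
    have h1 := h (n + 1) (by omega)
    have h2 : {k : ℕ | k < n + 1 ∧ k ∈ A} = A ∩ Set.Iic n := by
      ext k
      simp only [Set.mem_setOf_eq, Set.mem_inter_iff, Set.mem_Iic]
      constructor
      · rintro ⟨h3, h4⟩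
        exact ⟨h4, by omega⟩
      · rintro ⟨h3, h4⟩
        exact ⟨by omega, h3⟩
    rw [h2] at h1
    rw [le_div_iff₀ (by positivity)]
    push_cast at h1
    exact h1

/-- Over the real and over the complex numbers there are a separable, infinite dimensional Banach
space X and a continuous linear operator T on X with a dense set of periodic vectors such that
FRec(T) is comeager (its complement is meager), not meager, and different from X; in fact some
vector x satisfies ‖T^n x - x‖ ≥ 1 for all n ≥ 1. -/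
theorem result (𝕜 : Type) [RCLike 𝕜] :
    ∃ (X : Type) (_ : NormedAddCommGroup X) (_ : NormedSpace 𝕜 X) (T : X →L[𝕜] X),
      CompleteSpace X ∧ TopologicalSpace.SeparableSpace X ∧ ¬ FiniteDimensional 𝕜 X ∧
      Dense {x : X | ∃ n : ℕ, 1 ≤ n ∧ (T ^ n) x = x} ∧
      IsMeagre (FRec T)ᶜ ∧ ¬ IsMeagre (FRec T) ∧ FRec T ≠ Set.univ ∧
      ∃ x : X, ∀ n : ℕ, 1 ≤ n → 1 ≤ ‖(T ^ n) x - x‖ := by
  refine ⟨FRc51.Sp 𝕜, inferInstance, inferInstance, FRc51.T 𝕜, inferInstance,
    FRc51.separable, FRc51.infinite_dimensional, FRc51.dense_periodic, ?_⟩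
  have hres : FRec (FRc51.T 𝕜) ∈ residual (FRc51.Sp 𝕜) := by
    obtain ⟨G, hG, hG2⟩ := FRc51.exists_residual (𝕜 := 𝕜)
    refine Filter.mem_of_superset hG (fun x hx U hU => ?_)
    obtain ⟨δ, hδ, N, hN⟩ := hG2 x hx U hU
    exact lowerDensity_pos _ δ hδ N hN
  have hfar : ∀ n : ℕ, 1 ≤ n →
      1 ≤ ‖(FRc51.T 𝕜 ^ n) (FRc51.bad 𝕜) - FRc51.bad 𝕜‖ :=
    fun n hn => FRc51.bad_far n (by omega)
  refine ⟨?_, ?_, ?_, FRc51.bad 𝕜, hfar⟩
  · rw [IsMeagre, compl_compl]
    exact hres
  · intro hm
    have h2 : (∅ : Set (FRc51.Sp 𝕜)) ∈ residual (FRc51.Sp 𝕜) := by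
      have := Filter.inter_mem hres hm
      simpa using this
    have h3 : Dense (∅ : Set (FRc51.Sp 𝕜)) := dense_of_mem_residual h2
    have h4 := h3.nonempty
    simp at h4
  · intro h
    have h1 : FRc51.bad 𝕜 ∈ FRec (FRc51.T 𝕜) := by
      rw [h]
      trivial
    have h2 := h1 (Metric.ball (FRc51.bad 𝕜) 1) (Metric.ball_mem_nhds _ one_pos)
    set A : Set ℕ := {n : ℕ | (FRc51.T 𝕜 ^ n) (FRc51.bad 𝕜) ∈ Metric.ball (FRc51.bad 𝕜) 1}
      with hA
    have hA0 : A ⊆ {0} := by
      intro c hc
      by_contra hc0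
      rw [hA, Set.mem_setOf_eq, Metric.mem_ball, dist_eq_norm] at hc
      exact absurd hc (not_lt.2 (FRc51.bad_far c hc0))
    have h3 : Filter.Tendsto (fun N : ℕ => ((A ∩ Set.Iic N).ncard : ℝ) / ((N : ℝ) + 1))
        Filter.atTop (nhds 0) := by
      refine squeeze_zero (fun N => by positivity) (fun N => ?_)
        tendsto_one_div_add_atTop_nhds_zero_nat
      apply div_le_div_of_nonneg_right _ (by positivity)
      have h4 : (A ∩ Set.Iic N).ncard ≤ ({0} : Set ℕ).ncard :=
        Set.ncard_le_ncard (Set.inter_subset_left.trans hA0) (Set.finite_singleton 0)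
      rw [Set.ncard_singleton] at h4
      exact_mod_cast h4
    have h5 : lowerDensity A = 0 := h3.liminf_eq
    rw [h5] at h2
    exact lt_irrefl _ h2

end

end Pool.Agent.Results.MP_7364f6_an.ComeagerNotAll
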